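import Pool.Agent.Lib.MP_49bd53_lc.SP.Fin
import Pool.Agent.Lib.MP_49bd53_lc.SP.P.qa
import Pool.Agent.Lib.MP_49bd53_lc.SP.P.qs
import Pool.Agent.Lib.MP_49bd53_lc.SP.P.sr
import Pool.Agent.Lib.MP_49bd53_lc.SP.P.to
import Pool.Agent.Lib.MP_49bd53_lc.SP.P.bx
import Pool.Agent.Lib.MP_49bd53_lc.SP.P.am
import Pool.Agent.Lib.MP_49bd53_lc.SP.P.il
import Pool.Agent.Lib.MP_49bd53_lc.SP.P.ic
import Pool.Agent.Lib.MP_49bd53_lc.SP.P.is

/-!
# MP_49bd53_lc : interval completion is scheduling above LP
-/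

open scoped Classical

namespace Pool.Agent.Results.MP_49bd53_lc.IntervalCompletion

open Pool.Agent.MP_49bd53_lc

/-- For every finite graph `L`, the instance `intervalInst L` of `1|prec|∑ w_j C_j` has
`OPT = LB + f`, where `f` is the minimum number of edges whose addition makes `L` an interval
graph. -/
theorem result (V : Type) [Fintype V] (L : SimpleGraph V) :
    ((intervalInst L).opt : ℝ) = (intervalInst L).lb + fillNum L :=
  opt_interval (p_am (p_qs p_qa) p_sr p_to p_bx) p_il p_ic (p_is p_sr) V L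

end Pool.Agent.Results.MP_49bd53_lc.IntervalCompletion
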