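import Pool.Agent.Lib.MP_49bd53_lc.SP.Fin
import Pool.Agent.Lib.MP_49bd53_lc.SP.P.hl
import Pool.Agent.Lib.MP_49bd53_lc.SP.P.kg
import Pool.Agent.Lib.MP_49bd53_lc.SP.P.wd
import Pool.Agent.Lib.MP_49bd53_lc.SP.P.du
import Pool.Agent.Lib.MP_49bd53_lc.SP.P.lt
import Pool.Agent.Lib.MP_49bd53_lc.SP.P.ex
import Pool.Agent.Lib.MP_49bd53_lc.SP.P.mn
import Pool.Agent.Lib.MP_49bd53_lc.SP.P.tr
import Pool.Agent.Lib.MP_49bd53_lc.SP.P.bv
import Pool.Agent.Lib.MP_49bd53_lc.SP.P.bl
import Pool.Agent.Lib.MP_49bd53_lc.SP.P.cd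
import Pool.Agent.Lib.MP_49bd53_lc.SP.P.qa
import Pool.Agent.Lib.MP_49bd53_lc.SP.P.qs
import Pool.Agent.Lib.MP_49bd53_lc.SP.P.sr
import Pool.Agent.Lib.MP_49bd53_lc.SP.P.to
import Pool.Agent.Lib.MP_49bd53_lc.SP.P.bx
import Pool.Agent.Lib.MP_49bd53_lc.SP.P.am
import Pool.Agent.Lib.MP_49bd53_lc.SP.P.sc

/-!
# MP_49bd53_lc : scheduling above LP reduces to unweighted vertex cover above LP
-/

open scoped Classical

namespace Pool.Agent.Results.MP_49bd53_lc.UnweightedCover

open Pool.Agent.MP_49bd53_lc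

/-- For every instance `I` of `1|prec|∑ w_j C_j` there are (twice half-integral) optimal solutions
of the dual of the linear programme of vertex cover on the conflict graph `G_P` (weights
`p_i w_j`). For each of them, `y`, and each `K`, let `Γ` be the blow-up of `G_P` in which the vertex
`v` is replaced by `trunc wt y K v` copies. Then `Γ` has at most `(K + 1) n^4` vertices, `n` the
number of jobs, and `min (2 (OPT - LB)) (K + 1) = min (vc Γ - lp Γ) (K + 1)`, where `vc Γ` and
`lp Γ` are the vertex cover number of the (unweighted) graph `Γ` and the value of its linear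
programme. -/
theorem result (N : Type) [Fintype N] (I : Inst N) :
    (∃ y, OptDual I.conflict I.wt y) ∧
    ∀ y, OptDual I.conflict I.wt y → ∀ K : ℕ,
      Fintype.card (Copies (trunc I.wt y K)) ≤ (K + 1) * Fintype.card N ^ 4 ∧
      min (2 * ((I.opt : ℝ) - I.lb)) (K + 1) =
        min ((vc (blowup I.conflict (trunc I.wt y K)) (fun _ => 1) : ℝ) -
          lp (blowup I.conflict (trunc I.wt y K)) (fun _ => 1)) (K + 1) := by
  have h_du : S_du := p_du (p_kg p_hl) p_wd
  exact reduce h_du (p_tr (p_lt h_du p_wd) p_ex p_mn) p_bv p_bl p_cd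
    (p_am (p_qs p_qa) p_sr p_to p_bx) (p_sc p_bx) N I

end Pool.Agent.Results.MP_49bd53_lc.UnweightedCover
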